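import Pool.Agent.Y139.SM.Defs

/-!
# The defects of Tate's conjecture and the tensor powers of the transcendental part: statements

`X` is a smooth projective variety over a number field `K`, of dimension `d`, `0 ≤ m ≤ d`, `N` the `2m`-th
Betti number and `V` a part of `H^{2m}(X)(m)`, for example `V = A^m(X) ⊗ ℚ`, which for `m = 1` is
`NS(X) ⊗ ℚ`.  `T` is the transcendental part, the complement of `V(-m)` in `H^{2m}(X)`, of dimension
`s = N - dim V`; the tensor power `T^{⊗ r}` is a part of `H^{2rm}(X^r)`.  For an Artin representation `χ` of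
`K` let `x_χ(ε) = log |L(H^{2m}(X) ⊗ χ, m + 1 + ε)| / log(1/ε) - dim (V ⊗ χ)^G`; if the limit as `ε → 0+` is
`-δ`, then `δ` is the defect of `χ`, and Tate's conjecture says that it is `0`.  In the same way
`S_{r,ψ}(ε) = log |L(T^{⊗ r} ⊗ ψ, r m + 1 + ε)| / log(1/ε)`.
-/

set_option autoImplicit false

namespace Pool.Agent.Q11.TP

open NumberField IsDedekindDomain Filter Topology Polynomial
open Pool.Agent.W353.EF (LFun)
open Pool.Agent.W353.EH (edgePoint size)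
open Pool.Agent.W353.TD (rank)
open Pool.Agent.W353.AT (IsArtin IsTwistedSystem twistRank TwistDefect fixedDim)
open Pool.Agent.Y139.SM (IsTensorSystem TensorPole)

section
variable {K : Type} [Field K] [NumberField K] {l : ℕ} (X : Set (MvPolynomial (Fin l) (𝓞 K)))
  (d m N : ℕ) {V : Type} [AddCommGroup V] [Module ℚ V] [FiniteDimensional ℚ V]
  (ρ : Representation ℚ Gal(AlgebraicClosure K/K) V)

/-- **Bessel's inequality with the tensor square.**
* (No continuation is assumed.)  Let `χ_k` be finitely many pairwise inequivalent irreducible Artin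
  representations.  For every `η > 0` and all small `ε > 0` the `L`-functions do not vanish at
  `m + 1 + ε` (`2 m + 1 + ε` for `T ⊗ T`), and `∑ x_{χ_k}(ε)² ≤ S_{2,1}(ε) + η`.
* Let `L(T ⊗ T, s)` have a pole of order `p` at the edge `s = 2m + 1` (`S_{2,1}(ε) → p`).  Then
  `∑ δ_k² ≤ p` for the integral defects `δ_k` of the `χ_k`, if they exist.  If all irreducible Artin
  representations of `K` have integral defects, then there are at most `p` of them, `χ_k`, with a defect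
  `δ_k ≠ 0`; `∑ δ_k² ≤ p`, all others have the defect `0`, and for every number field `F ⊇ K`, of
  whatever degree, `log |L(H^{2m}(X_F), m + 1 + ε)| / log(1/ε)` tends to
  `dim V^{Gal(K̄/F)} - ∑ δ_k dim χ_k^{Gal(K̄/F)}`. -/
def SquareBessel : Prop :=
  (∀ (κ : Type) [Fintype κ] (n : κ → ℕ)
    (χ : ∀ k, Representation ℂ Gal(AlgebraicClosure K/K) (Fin (n k) → ℂ))
    (B : κ → HeightOneSpectrum (𝓞 K) → ℂ[X]) (B₂ : HeightOneSpectrum (𝓞 K) → ℂ[X]),
    (∀ k, IsArtin (χ k)) → (∀ k, (χ k).IsIrreducible) →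
    (∀ k k', k ≠ k' → IsEmpty ((χ k).Equiv (χ k'))) →
    (∀ k, IsTwistedSystem X d (2 * m) N (χ k) 0 (B k)) →
    IsTensorSystem X d m N ρ 2
      (1 : Representation ℂ Gal(AlgebraicClosure K/K) (Fin 1 → ℂ)) B₂ →
    (∀ k, ∀ᶠ ε : ℝ in 𝓝[>] 0, LFun (B k) (edgePoint (2 * m) 0 + ε) ≠ 0) ∧
    (∀ᶠ ε : ℝ in 𝓝[>] 0, LFun B₂ (edgePoint (2 * (2 * m)) 0 + ε) ≠ 0) ∧
    ∀ η : ℝ, 0 < η → ∀ᶠ ε : ℝ in 𝓝[>] 0,
      ∑ k, (size (2 * m) 0 (B k) ε - twistRank ρ (χ k)) ^ 2 ≤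
        size (2 * (2 * m)) 0 B₂ ε + η) ∧
  ∀ p : ℕ, TensorPole X d m N ρ 2
      (1 : Representation ℂ Gal(AlgebraicClosure K/K) (Fin 1 → ℂ)) p →
    (∀ (κ : Type) [Fintype κ] (n : κ → ℕ)
      (χ : ∀ k, Representation ℂ Gal(AlgebraicClosure K/K) (Fin (n k) → ℂ)) (δ : κ → ℤ),
      (∀ k, IsArtin (χ k)) → (∀ k, (χ k).IsIrreducible) →
      (∀ k k', k ≠ k' → IsEmpty ((χ k).Equiv (χ k'))) →
      (∀ k, TwistDefect X d m N ρ (χ k) (δ k)) → ∑ k, δ k ^ 2 ≤ (p : ℤ)) ∧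
    ((∀ (n : ℕ) (χ : Representation ℂ Gal(AlgebraicClosure K/K) (Fin n → ℂ)), IsArtin χ →
      χ.IsIrreducible → ∃ δ : ℤ, TwistDefect X d m N ρ χ δ) →
      ∃ (κ : Type) (_ : Fintype κ) (n : κ → ℕ)
        (χ : ∀ k, Representation ℂ Gal(AlgebraicClosure K/K) (Fin (n k) → ℂ)) (δ : κ → ℤ),
        (∀ k, IsArtin (χ k) ∧ (χ k).IsIrreducible ∧ δ k ≠ 0 ∧
          TwistDefect X d m N ρ (χ k) (δ k)) ∧
        (∀ k k', k ≠ k' → IsEmpty ((χ k).Equiv (χ k'))) ∧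
        ∑ k, δ k ^ 2 ≤ (p : ℤ) ∧ Fintype.card κ ≤ p ∧
        (∀ (n' : ℕ) (χ' : Representation ℂ Gal(AlgebraicClosure K/K) (Fin n' → ℂ)), IsArtin χ' →
          χ'.IsIrreducible → (∀ k, IsEmpty (χ'.Equiv (χ k))) → TwistDefect X d m N ρ χ' 0) ∧
        ∀ (F : IntermediateField K (AlgebraicClosure K)) [NumberField F]
          (B : HeightOneSpectrum (𝓞 F) → ℂ[X]),
          Pool.Agent.W353.EF.IsEulerSystem X d (2 * m) N B →
          (∀ᶠ ε : ℝ in 𝓝[>] 0, LFun B (((2 * m : ℕ) : ℂ) / 2 + 1 + ε) ≠ 0) ∧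
          Tendsto (Pool.Agent.W353.EF.size (2 * m) B) (𝓝[>] 0)
            (𝓝 ((rank ρ F : ℝ) - ∑ k, (δ k : ℝ) * fixedDim (χ k) F)))

/-- **Rigidity of a defect.**  Let `χ` be an irreducible Artin representation of `K`, of dimension `n`.
* (No continuation is assumed.)  Let `ψ`, `θ` be Artin representations with `tr θ = (tr χ)^r tr ψ`, `n'` the
  dimension of `ψ`, and `e = 1` or `e = -1`.  For all `δ, η > 0` and all small `ε > 0` the number
  `D = S_{2,1}(ε) + 2 e x_χ(ε) + 1` is at least `-η`, and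
  `|S_{r,ψ}(ε) - (-e)^r dim θ^G| ≤ r (s + n)^{r-1} n' (δ + D / δ) / 2 + η`.
* Let `L(T ⊗ T, s)` have a pole of order `p ≤ 1` at the edge (this is expected if `T` is absolutely
  irreducible), and let `χ` have the defect `δ ≠ 0`.  Then `p = 1` and `δ = ±1`, the representation `χ` is
  self-dual (if `tr θ = (tr χ)²`, then `dim θ^G = 1`), and `L(T^{⊗ r} ⊗ ψ, s)` has a pole of order
  `(-δ)^r dim θ^G` at the edge, in the sense that `S_{r,ψ}(ε)` tends to this number, for all `r`, `ψ`, `θ` as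
  above. -/
def DefectRigidity : Prop :=
  ∀ (n : ℕ) (χ : Representation ℂ Gal(AlgebraicClosure K/K) (Fin n → ℂ)), IsArtin χ →
    χ.IsIrreducible →
    (∀ (r n' n'' : ℕ) (ψ : Representation ℂ Gal(AlgebraicClosure K/K) (Fin n' → ℂ))
      (θ : Representation ℂ Gal(AlgebraicClosure K/K) (Fin n'' → ℂ))
      (B₁ B₂ B : HeightOneSpectrum (𝓞 K) → ℂ[X]), IsArtin ψ → IsArtin θ →
      (∀ g, θ.character g = χ.character g ^ r * ψ.character g) →
      IsTwistedSystem X d (2 * m) N χ 0 B₁ →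
      IsTensorSystem X d m N ρ 2
        (1 : Representation ℂ Gal(AlgebraicClosure K/K) (Fin 1 → ℂ)) B₂ →
      IsTensorSystem X d m N ρ r ψ B →
      (∀ᶠ ε : ℝ in 𝓝[>] 0, LFun B₁ (edgePoint (2 * m) 0 + ε) ≠ 0 ∧
        LFun B₂ (edgePoint (2 * (2 * m)) 0 + ε) ≠ 0 ∧
        LFun B (edgePoint (2 * (r * m)) 0 + ε) ≠ 0) ∧
      ∀ e : ℝ, e = 1 ∨ e = -1 → ∀ δ η : ℝ, 0 < δ → 0 < η → ∀ᶠ ε : ℝ in 𝓝[>] 0,
        0 ≤ size (2 * (2 * m)) 0 B₂ ε + 2 * e * (size (2 * m) 0 B₁ ε - twistRank ρ χ) + 1 + η ∧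
        |size (2 * (r * m)) 0 B ε - (-e) ^ r * Module.finrank ℂ θ.invariants| ≤
          r * (((N - Module.finrank ℚ V : ℕ) : ℝ) + n) ^ (r - 1) * n' *
            ((δ + (size (2 * (2 * m)) 0 B₂ ε +
              2 * e * (size (2 * m) 0 B₁ ε - twistRank ρ χ) + 1) / δ) / 2) + η) ∧
    ∀ (p : ℕ) (δ : ℤ), p ≤ 1 → TensorPole X d m N ρ 2
        (1 : Representation ℂ Gal(AlgebraicClosure K/K) (Fin 1 → ℂ)) p →
      TwistDefect X d m N ρ χ δ → δ ≠ 0 →
      (δ = 1 ∨ δ = -1) ∧ p = 1 ∧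
      (∀ (n'' : ℕ) (θ : Representation ℂ Gal(AlgebraicClosure K/K) (Fin n'' → ℂ)), IsArtin θ →
        (∀ g, θ.character g = χ.character g ^ 2) → Module.finrank ℂ θ.invariants = 1) ∧
      ∀ (r n' n'' : ℕ) (ψ : Representation ℂ Gal(AlgebraicClosure K/K) (Fin n' → ℂ))
        (θ : Representation ℂ Gal(AlgebraicClosure K/K) (Fin n'' → ℂ))
        (B : HeightOneSpectrum (𝓞 K) → ℂ[X]), IsArtin ψ → IsArtin θ →
        (∀ g, θ.character g = χ.character g ^ r * ψ.character g) →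
        IsTensorSystem X d m N ρ r ψ B →
        Tendsto (size (2 * (r * m)) 0 B) (𝓝[>] 0)
          (𝓝 ((-δ : ℤ) ^ r * Module.finrank ℂ θ.invariants))

/-- **The fourth tensor power.**  Let `χ` be an irreducible Artin representation of `K`, of dimension
`n`, and `ψ` an Artin representation with `tr ψ = |tr χ|²`.
* (No continuation is assumed.)  For every `η > 0` and all small `ε > 0`,
  `|x_χ(ε)| ≤ (S_{2,1}(ε) + 1) / 2 - (S_{4,1}(ε) - 2 S_{2,ψ}(ε) + 1) / (2 (s + n)²) + η`.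
* If `L(T ⊗ T, s)` and `L(T ⊗ T ⊗ ψ, s)` have simple poles at the edge and `L(T^{⊗ 4}, s)` has a pole of
  order `k ≠ 1` at the edge, then a defect of `χ` is `0`.
* Suppose that `L(T ⊗ T ⊗ ψ, s)` has a pole of order `dim ψ^G` for all Artin representations `ψ` of `K`
  (Tate's conjecture for `T ⊗ T`, if `T` is absolutely irreducible over all number fields), that
  `L(T^{⊗ 4}, s)` has a pole of order `k ≠ 1`, and that all irreducible Artin representations have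
  integral defects.  Then Tate's conjecture on the pole holds for `X_F` for all number fields `F ⊇ K`:
  `log |L(H^{2m}(X_F), m + 1 + ε)| / log(1/ε)` tends to `dim V^{Gal(K̄/F)}`. -/
def FourthPower : Prop :=
  (∀ (n : ℕ) (χ : Representation ℂ Gal(AlgebraicClosure K/K) (Fin n → ℂ)), IsArtin χ →
    χ.IsIrreducible →
    ∀ (n' : ℕ) (ψ : Representation ℂ Gal(AlgebraicClosure K/K) (Fin n' → ℂ)), IsArtin ψ →
    (∀ g, ψ.character g = ((‖χ.character g‖ ^ 2 : ℝ) : ℂ)) →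
    (∀ B B₂ Bψ B₄ : HeightOneSpectrum (𝓞 K) → ℂ[X], IsTwistedSystem X d (2 * m) N χ 0 B →
      IsTensorSystem X d m N ρ 2
        (1 : Representation ℂ Gal(AlgebraicClosure K/K) (Fin 1 → ℂ)) B₂ →
      IsTensorSystem X d m N ρ 2 ψ Bψ →
      IsTensorSystem X d m N ρ 4
        (1 : Representation ℂ Gal(AlgebraicClosure K/K) (Fin 1 → ℂ)) B₄ →
      (∀ᶠ ε : ℝ in 𝓝[>] 0, LFun B (edgePoint (2 * m) 0 + ε) ≠ 0) ∧
      ∀ η : ℝ, 0 < η → ∀ᶠ ε : ℝ in 𝓝[>] 0, |size (2 * m) 0 B ε - twistRank ρ χ| ≤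
        (size (2 * (2 * m)) 0 B₂ ε + 1) / 2 -
          (size (2 * (4 * m)) 0 B₄ ε - 2 * size (2 * (2 * m)) 0 Bψ ε + 1) /
            (2 * (((N - Module.finrank ℚ V : ℕ) : ℝ) + n) ^ 2) + η) ∧
    ∀ k : ℕ, TensorPole X d m N ρ 2
        (1 : Representation ℂ Gal(AlgebraicClosure K/K) (Fin 1 → ℂ)) 1 →
      TensorPole X d m N ρ 2 ψ 1 →
      TensorPole X d m N ρ 4
        (1 : Representation ℂ Gal(AlgebraicClosure K/K) (Fin 1 → ℂ)) k → k ≠ 1 →
      ∀ δ : ℤ, TwistDefect X d m N ρ χ δ → δ = 0) ∧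
  ((∀ (n : ℕ) (ψ : Representation ℂ Gal(AlgebraicClosure K/K) (Fin n → ℂ)), IsArtin ψ →
      TensorPole X d m N ρ 2 ψ (Module.finrank ℂ ψ.invariants)) →
    (∀ k : ℕ, TensorPole X d m N ρ 4
      (1 : Representation ℂ Gal(AlgebraicClosure K/K) (Fin 1 → ℂ)) k → k ≠ 1 →
    (∀ (n : ℕ) (χ : Representation ℂ Gal(AlgebraicClosure K/K) (Fin n → ℂ)), IsArtin χ →
      χ.IsIrreducible → ∃ δ : ℤ, TwistDefect X d m N ρ χ δ) →
    ∀ (F : IntermediateField K (AlgebraicClosure K)) [NumberField F]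
      (B : HeightOneSpectrum (𝓞 F) → ℂ[X]), Pool.Agent.W353.EF.IsEulerSystem X d (2 * m) N B →
      (∀ᶠ ε : ℝ in 𝓝[>] 0, LFun B (((2 * m : ℕ) : ℂ) / 2 + 1 + ε) ≠ 0) ∧
      Tendsto (Pool.Agent.W353.EF.size (2 * m) B) (𝓝[>] 0) (𝓝 (rank ρ F : ℝ))))

end

end Pool.Agent.Q11.TP
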