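import Pool.Agent.Y139.SM.GDefs

/-!
# The edge line and the tensor square: statement
-/

set_option autoImplicit false

namespace Pool.Agent.Q11.TP

open NumberField IsDedekindDomain Filter Topology Polynomial
open Pool.Agent.W353.EF (LFun)
open Pool.Agent.W353.EH (edgePoint size HasOrder)
open Pool.Agent.W353.AT (IsArtin IsTwistedSystem TwistOrder)
open Pool.Agent.Y139.SM (IsPowerSystem)

section
variable {K : Type} [Field K] [NumberField K] {l : ℕ}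

/-- `L(H^i(X) ⊗ H^i(X), s)` has a meromorphic continuation to a neighbourhood of the edge `i + 1`, of
order `k` at this point (`k < 0` for a pole). -/
def SquareOrder (X : Set (MvPolynomial (Fin l) (𝓞 K))) (d i N : ℕ) (k : ℤ) : Prop :=
  ∃ B : HeightOneSpectrum (𝓞 K) → ℂ[X],
    IsPowerSystem X d i N 2 (1 : Representation ℂ Gal(AlgebraicClosure K/K) (Fin 1 → ℂ)) B ∧
    HasOrder (2 * i) 0 B k

/-- No pair `(χ_k, τ_k)` is the complex conjugate of a pair `(χ_l, τ_l)`: for all `k`, `l` (also for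
`k = l`) `τ_k + τ_l ≠ 0`, or `(χ_k ⊗ χ_l)^G = 0`.  This holds for example if all `τ_k` are positive, and for
a single pair with `τ ≠ 0`, or with `χ` not self-dual. -/
def NoConjugates {κ : Type} {n : κ → ℕ}
    (χ : ∀ k, Representation ℂ Gal(AlgebraicClosure K/K) (Fin (n k) → ℂ)) (τ : κ → ℝ) : Prop :=
  ∀ k l, τ k + τ l ≠ 0 ∨ ∃ (n' : ℕ) (θ : Representation ℂ Gal(AlgebraicClosure K/K) (Fin n' → ℂ)),
    IsArtin θ ∧ (∀ g, θ.character g = (χ k).character g * (χ l).character g) ∧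
    Module.finrank ℂ θ.invariants = 0

/-- Let `(χ_k, τ_k)`, `k` in a finite set, be different pairs of an irreducible Artin representation and a
real number (`χ_k` not isomorphic to `χ_l` if `k ≠ l` and `τ_k = τ_l`),
`x_k(ε) = log |L(H^i(X) ⊗ χ_k, i/2 + 1 + iτ_k + ε)| / log(1/ε)` and
`S(ε) = log |L(H^i(X) ⊗ H^i(X), i + 1 + ε)| / log(1/ε)`.
* (No continuation is assumed.)  For every `η > 0` and all small `ε > 0` the `L`-functions do not vanish
  at these points, `∑ x_k(ε)² ≤ S(ε) + η`, and `2 ∑ x_k(ε)² ≤ S(ε) + η` if `NoConjugates`.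
* If there are meromorphic continuations to neighbourhoods of these points of the edge lines, of the
  orders `m_k` and `-p`, then `∑ m_k² ≤ p`, and `2 ∑ m_k² ≤ p` if `NoConjugates`.
* If `L(H^i(X) ⊗ H^i(X), s)` has at most a simple pole at `i + 1`, then no `L(H^i(X) ⊗ χ, s)` with `χ`
  irreducible has a pole or a zero at a point `i/2 + 1 + iτ` of the edge line with `τ ≠ 0`; at most one of
  them has a pole or a zero at `i/2 + 1`; it is simple, and `χ` is self-dual. -/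
def EdgeSquare (X : Set (MvPolynomial (Fin l) (𝓞 K))) (d i N : ℕ) : Prop :=
  (∀ (κ : Type) [Fintype κ] (n : κ → ℕ)
    (χ : ∀ k, Representation ℂ Gal(AlgebraicClosure K/K) (Fin (n k) → ℂ)) (τ : κ → ℝ),
    (∀ k, IsArtin (χ k)) → (∀ k, (χ k).IsIrreducible) →
    (∀ k l, k ≠ l → τ k = τ l → IsEmpty ((χ k).Equiv (χ l))) →
    (∀ (B : κ → HeightOneSpectrum (𝓞 K) → ℂ[X]) (B₂ : HeightOneSpectrum (𝓞 K) → ℂ[X]),
      (∀ k, IsTwistedSystem X d i N (χ k) (τ k) (B k)) →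
      IsPowerSystem X d i N 2 (1 : Representation ℂ Gal(AlgebraicClosure K/K) (Fin 1 → ℂ)) B₂ →
      (∀ k, ∀ᶠ ε : ℝ in 𝓝[>] 0, LFun (B k) (edgePoint i (τ k) + ε) ≠ 0) ∧
      (∀ᶠ ε : ℝ in 𝓝[>] 0, LFun B₂ (edgePoint (2 * i) 0 + ε) ≠ 0) ∧
      ∀ η : ℝ, 0 < η →
        (∀ᶠ ε : ℝ in 𝓝[>] 0, ∑ k, (size i (τ k) (B k) ε) ^ 2 ≤ size (2 * i) 0 B₂ ε + η) ∧
        (NoConjugates χ τ → ∀ᶠ ε : ℝ in 𝓝[>] 0,
          2 * ∑ k, (size i (τ k) (B k) ε) ^ 2 ≤ size (2 * i) 0 B₂ ε + η)) ∧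
    ∀ (m : κ → ℤ) (p : ℤ), (∀ k, TwistOrder X d i N (χ k) (τ k) (m k)) →
      SquareOrder X d i N (-p) →
      ∑ k, m k ^ 2 ≤ p ∧ (NoConjugates χ τ → 2 * ∑ k, m k ^ 2 ≤ p)) ∧
  ∀ p : ℤ, SquareOrder X d i N (-p) → p ≤ 1 →
    (∀ (n : ℕ) (χ : Representation ℂ Gal(AlgebraicClosure K/K) (Fin n → ℂ)) (τ : ℝ) (m : ℤ),
      IsArtin χ → χ.IsIrreducible → TwistOrder X d i N χ τ m →
      (τ ≠ 0 → m = 0) ∧ (m ≠ 0 → (m = 1 ∨ m = -1) ∧ p = 1 ∧
        ∀ (n' : ℕ) (θ : Representation ℂ Gal(AlgebraicClosure K/K) (Fin n' → ℂ)), IsArtin θ →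
          (∀ g, θ.character g = χ.character g ^ 2) → Module.finrank ℂ θ.invariants ≠ 0)) ∧
    ∀ (n n' : ℕ) (χ : Representation ℂ Gal(AlgebraicClosure K/K) (Fin n → ℂ))
      (χ' : Representation ℂ Gal(AlgebraicClosure K/K) (Fin n' → ℂ)) (m m' : ℤ),
      IsArtin χ → χ.IsIrreducible → IsArtin χ' → χ'.IsIrreducible →
      TwistOrder X d i N χ 0 m → TwistOrder X d i N χ' 0 m' → m ≠ 0 → m' ≠ 0 →
      Nonempty (χ.Equiv χ')

end

end Pool.Agent.Q11.TP
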