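import Pool.Agent.Q11.TP.Gram
import Pool.Agent.Q11.TP.EDefs
import Pool.Agent.Y139.SM.Fin2

/-!
# The edge line and the tensor square: proofs
-/

set_option autoImplicit false

namespace Pool.Agent.Q11.TP

open Complex Filter Topology ComplexConjugate NumberField IsDedekindDomain Asymptotics
  Pool.Agent.W401.Cheb Pool.Agent.W540.BE Pool.Agent.W353.L1 Polynomial Pool.Agent.Y139.SM
open Pool.Agent.H341R2 (lam lam_tendsto)
open Pool.Agent.W353.PV (tF)
open Pool.Agent.W353.EF (LFun)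
open Pool.Agent.W353.EH (edgePoint size HasOrder)
open Pool.Agent.W353.AT (IsArtin exists_common tw_size tw_lim IsTwistedSystem TwistOrder)

section
variable {K : Type} [Field K] [NumberField K] {l : ℕ} {X : Set (MvPolynomial (Fin l) (𝓞 K))}
  {d i N : ℕ}

/-- Bessel's inequality for `H`, without and with the factor two -/
theorem besselH (hi : i ≤ 2 * d) {κ : Type} [Fintype κ] (n : κ → ℕ)
    (χ : ∀ k, Representation ℂ (GK K) (Fin (n k) → ℂ)) (τ : κ → ℝ) (hA : ∀ k, IsArtin (χ k))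
    (hirr : ∀ k, (χ k).IsIrreducible)
    (hne : ∀ k l, k ≠ l → τ k = τ l → IsEmpty ((χ k).Equiv (χ l)))
    (B : κ → HeightOneSpectrum (𝓞 K) → ℂ[X]) (B₂ : HeightOneSpectrum (𝓞 K) → ℂ[X])
    (hB : ∀ k, IsTwistedSystem X d i N (χ k) (τ k) (B k))
    (hB₂ : IsPowerSystem X d i N 2 (1 : Representation ℂ (GK K) (Fin 1 → ℂ)) B₂) :
    (∀ k, ∀ᶠ ε : ℝ in 𝓝[>] 0, LFun (B k) (edgePoint i (τ k) + ε) ≠ 0) ∧
    (∀ᶠ ε : ℝ in 𝓝[>] 0, LFun B₂ (edgePoint (2 * i) 0 + ε) ≠ 0) ∧
    ∀ η : ℝ, 0 < η →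
      (∀ᶠ ε : ℝ in 𝓝[>] 0, ∑ k, (size i (τ k) (B k) ε) ^ 2 ≤ size (2 * i) 0 B₂ ε + η) ∧
      (NoConjugates χ τ → ∀ᶠ ε : ℝ in 𝓝[>] 0,
        2 * ∑ k, (size i (τ k) (B k) ε) ^ 2 ≤ size (2 * i) 0 B₂ ε + η) := by
  classical
  choose σ hσ using exists_isFrob (F := K)
  obtain ⟨U, hUn, hU, hx1⟩ := exists_common χ hA
  have hfin : Finite (GK K ⧸ U) := Subgroup.quotient_finite_of_isOpen U hU
  have hT : ∀ v, |tF X d i N K v| ≤ (N : ℝ) := fun v => abs_tr_le _ _ _
  have g2 := power_size hi hσ 2 _ one_artin B₂ hB₂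
  have hS : Tendsto (fun ε : ℝ => (EP (nm K) ε fun v => tF X d i N K v * tF X d i N K v) / lam ε -
      size (2 * i) 0 B₂ ε) (𝓝[>] 0) (𝓝 0) := by
    refine g2.2.congr fun ε => ?_
    simp only [RR_one, mul_one, pow_two]
  refine ⟨fun k => (tw_size hi U (χ k) (hx1 k) (τ k) (B k) (hB k) σ hσ).1, g2.1,
    fun η hη => ⟨?_, fun hnc => ?_⟩⟩
  · exact bessel_two U hU Finset.univ χ hx1 τ σ hσ (T := tF X d i N K) (Nat.cast_nonneg N) hT
      (x := fun k => size i (τ k) (B k))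
      (fun k _ => (tw_size hi U (χ k) (hx1 k) (τ k) (B k) (hB k) σ hσ).2) hS
      (fun k _ => hirr k) (fun k _ l _ => hne k l) hη
  · exact bessel_half (Nat.cast_nonneg N) hT U hU χ hx1 τ σ hσ hirr hne hnc
      (x := fun k => size i (τ k) (B k))
      (fun k => (tw_size hi U (χ k) (hx1 k) (τ k) (B k) (hB k) σ hσ).2) hS hη

/-- the orders -/
theorem ordersH (hi : i ≤ 2 * d) {κ : Type} [Fintype κ] (n : κ → ℕ)
    (χ : ∀ k, Representation ℂ (GK K) (Fin (n k) → ℂ)) (τ : κ → ℝ) (hA : ∀ k, IsArtin (χ k))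
    (hirr : ∀ k, (χ k).IsIrreducible)
    (hne : ∀ k l, k ≠ l → τ k = τ l → IsEmpty ((χ k).Equiv (χ l)))
    (m : κ → ℤ) (p : ℤ) (hm : ∀ k, TwistOrder X d i N (χ k) (τ k) (m k))
    (hp : SquareOrder X d i N (-p)) :
    ∑ k, m k ^ 2 ≤ p ∧ (NoConjugates χ τ → 2 * ∑ k, m k ^ 2 ≤ p) := by
  classical
  choose B hB hm using hm
  obtain ⟨B₂, hB₂, hp⟩ := hp
  choose σ hσ using exists_isFrob (F := K)
  obtain ⟨U, hUn, hU, hx1⟩ := exists_common χ hA
  have hfin : Finite (GK K ⧸ U) := Subgroup.quotient_finite_of_isOpen U hU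
  obtain ⟨h1, h2, h3⟩ := besselH hi n χ τ hA hirr hne B B₂ hB hB₂
  have l2 : Tendsto (size (2 * i) 0 B₂) (𝓝[>] 0) (𝓝 (p : ℝ)) := by
    have h := size_of_order h2 hp
    push_cast at h
    rwa [neg_neg] at h
  have l1 : Tendsto (fun ε : ℝ => ∑ k, (size i (τ k) (B k) ε) ^ 2) (𝓝[>] 0)
      (𝓝 (∑ k, ((m k : ℝ)) ^ 2)) := by
    refine tendsto_finsetSum _ fun k _ => ?_
    have h := (tw_lim hi U (χ k) (hx1 k) (τ k) (B k) (hB k) (hm k)).pow 2
    rwa [neg_sq] at h
  constructor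
  · have h4 : ∑ k, ((m k : ℝ)) ^ 2 ≤ (p : ℝ) := by
      refine le_of_forall_pos_le_add fun η hη => ?_
      exact le_of_tendsto_of_tendsto l1 (l2.add_const η) (h3 η hη).1
    exact_mod_cast h4
  · intro hnc
    have h4 : 2 * ∑ k, ((m k : ℝ)) ^ 2 ≤ (p : ℝ) := by
      refine le_of_forall_pos_le_add fun η hη => ?_
      exact le_of_tendsto_of_tendsto (l1.const_mul 2) (l2.add_const η) ((h3 η hη).2 hnc)
    exact_mod_cast h4

/-- **The edge line and the tensor square.** -/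
theorem edgeSquare (hi : i ≤ 2 * d) : EdgeSquare X d i N := by
  classical
  refine ⟨fun κ _ n χ τ hA hirr hne => ⟨fun B B₂ hB hB₂ =>
    besselH hi n χ τ hA hirr hne B B₂ hB hB₂, fun m p hm hp =>
    ordersH hi n χ τ hA hirr hne m p hm hp⟩, fun p hp hp1 => ⟨?_, ?_⟩⟩
  · intro n χ τ m hA hirr hm
    obtain ⟨h1, h2⟩ := ordersH (κ := Unit) hi (fun _ => n) (fun _ => χ) (fun _ => τ)
      (fun _ => hA) (fun _ => hirr) (fun k k' h => absurd (Subsingleton.elim k k') h)
      (fun _ => m) p (fun _ => hm) hp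
    simp only [Finset.univ_unique, Finset.sum_singleton] at h1 h2
    have hzero : NoConjugates (κ := Unit) (fun _ => χ) (fun _ => τ) → m = 0 := by
      intro hnc
      have h3 := h2 hnc
      nlinarith [sq_nonneg m, sq_nonneg (m - 1), sq_nonneg (m + 1)]
    refine ⟨fun hτ => hzero fun _ _ => Or.inl fun h => hτ (by linarith), fun hm0 => ?_⟩
    have h4 : 1 ≤ m ^ 2 := by
      have : 0 < m ^ 2 := by positivity
      omega
    have hpe : p = 1 := by omega
    refine ⟨?_, hpe, fun n' θ hθ hc h0 => hm0 (hzero fun _ _ => Or.inr ⟨n', θ, hθ, fun g => ?_, h0⟩)⟩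
    · have h5 : -1 ≤ m := by nlinarith
      have h6 : m ≤ 1 := by nlinarith
      omega
    · rw [hc, pow_two]
  · intro n n' χ χ' m m' hA hirr hA' hirr' hm hm' h0 h0'
    by_contra hcon
    have h1 := (ordersH (κ := Bool) hi (fun b => if b then n else n')
      (fun b => match b with
        | true => χ
        | false => χ') (fun _ => 0)
      (fun b => match b with
        | true => hA
        | false => hA')
      (fun b => match b with
        | true => hirr
        | false => hirr')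
      (fun b b' h _ => by
        rcases b with _ | _ <;> rcases b' with _ | _
        · exact absurd rfl h
        · exact ⟨fun e => hcon ⟨e.symm⟩⟩
        · exact ⟨fun e => hcon ⟨e⟩⟩
        · exact absurd rfl h) (fun b => if b then m else m') p
      (fun b => match b with
        | true => hm
        | false => hm') hp).1
    simp only [Fintype.sum_bool, if_true, Bool.false_eq_true, if_false] at h1
    have h2 : 1 ≤ m ^ 2 := by
      have : 0 < m ^ 2 := by positivity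
      omega
    have h3 : 1 ≤ m' ^ 2 := by
      have : 0 < m' ^ 2 := by positivity
      omega
    omega

end

end Pool.Agent.Q11.TP
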