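import Pool.Agent.Y139.SM.Bessel
import Pool.Agent.Y139.SM.Rigid2

/-!
# A Gram inequality for mean values over the primes
-/

set_option autoImplicit false

namespace Pool.Agent.Q11.TP

open Complex Filter Topology ComplexConjugate NumberField IsDedekindDomain Asymptotics
  Pool.Agent.W401.Cheb Pool.Agent.W540.BE Pool.Agent.W353.L1 Polynomial Pool.Agent.Y139.SM
open Pool.Agent.H341R2 (lam lam_tendsto)
open Pool.Agent.W353.AT (IsArtin exists_common)

section
variable {K : Type} [Field K] [NumberField K]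

/-- **The Gram inequality**, uniformly for bounded coefficients. -/
theorem gram {κ : Type} [Fintype κ] {T : HeightOneSpectrum (𝓞 K) → ℝ}
    {f : κ → HeightOneSpectrum (𝓞 K) → ℝ} {s D : ℝ}
    (hT : ∀ v, |T v| ≤ s) (hf : ∀ k v, |f k v| ≤ D) {G : κ → κ → ℝ}
    (hG : ∀ k l, Has (fun v => f k v * f l v) (G k l)) {x : κ → ℝ → ℝ}
    (hx : ∀ k, Tendsto (fun ε : ℝ => (EP (nm K) ε fun v => T v * f k v) / lam ε - x k ε)
      (𝓝[>] 0) (𝓝 0)) {S : ℝ → ℝ}
    (hS : Tendsto (fun ε : ℝ => (EP (nm K) ε fun v => T v * T v) / lam ε - S ε) (𝓝[>] 0) (𝓝 0))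
    {B : ℝ} (hB : 0 ≤ B) {η : ℝ} (hη : 0 < η) :
    ∀ᶠ ε : ℝ in 𝓝[>] 0, ∀ c : κ → ℝ, (∀ k, |c k| ≤ B) →
      0 ≤ S ε - 2 * ∑ k, c k * x k ε + ∑ k, ∑ l, c k * c l * G k l + η := by
  classical
  have hN : NormSys (nm K) := normSys
  set n : ℝ := (Fintype.card κ : ℝ) with hn
  have hn0 : 0 ≤ n := Nat.cast_nonneg _
  set L : ℝ := 1 + 2 * (n * B) + n * (n * (B * B)) with hL
  have hL0 : 0 < L := by positivity
  set θ : ℝ := η / L with hθ
  have hθ0 : 0 < θ := by positivity
  have e1 : ∀ᶠ ε : ℝ in 𝓝[>] 0, ∀ k,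
      |(EP (nm K) ε fun v => T v * f k v) / lam ε - x k ε| < θ := by
    rw [Filter.eventually_all]
    intro k
    filter_upwards [(Metric.tendsto_nhds.1 (hx k)) θ hθ0] with ε h
    rwa [Real.dist_eq, sub_zero] at h
  have e2 : ∀ᶠ ε : ℝ in 𝓝[>] 0, ∀ k l,
      |(EP (nm K) ε fun v => f k v * f l v) / lam ε - G k l| < θ := by
    rw [Filter.eventually_all]
    intro k
    rw [Filter.eventually_all]
    intro l
    filter_upwards [(Metric.tendsto_nhds.1 (hG k l).2) θ hθ0] with ε h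
    rwa [Real.dist_eq] at h
  filter_upwards [e1, e2, (Metric.tendsto_nhds.1 hS) θ hθ0, lam_tendsto.eventually_gt_atTop 0,
    self_mem_nhdsWithin] with ε h1 h2 h3 h4 h5 c hc
  rw [Real.dist_eq, sub_zero] at h3
  have hε : (0 : ℝ) < ε := h5
  -- the square
  have b1 : ∀ v, |T v * T v| ≤ s * s := fun v => by
    rw [abs_mul]
    exact mul_le_mul (hT v) (hT v) (abs_nonneg _) ((abs_nonneg _).trans (hT v))
  have b2 : ∀ k, ∀ v, |(-2 * c k) * (T v * f k v)| ≤ (2 * B) * (s * D) := fun k v => by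
    rw [abs_mul, abs_mul, abs_mul, abs_neg, abs_two]
    refine mul_le_mul (mul_le_mul_of_nonneg_left (hc k) (by norm_num)) ?_ (by positivity)
      (by positivity)
    exact mul_le_mul (hT v) (hf k v) (abs_nonneg _) ((abs_nonneg _).trans (hT v))
  have b3 : ∀ k l, ∀ v, |(c k * c l) * (f k v * f l v)| ≤ (B * B) * (D * D) := fun k l v => by
    rw [abs_mul, abs_mul, abs_mul]
    refine mul_le_mul (mul_le_mul (hc k) (hc l) (abs_nonneg _) hB) ?_ (by positivity)
      (by positivity)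
    exact mul_le_mul (hf k v) (hf l v) (abs_nonneg _) ((abs_nonneg _).trans (hf k v))
  have b4 : ∀ v, |∑ k, (-2 * c k) * (T v * f k v)| ≤ ∑ _k : κ, (2 * B) * (s * D) := fun v =>
    (Finset.abs_sum_le_sum_abs _ _).trans (Finset.sum_le_sum fun k _ => b2 k v)
  have b5 : ∀ k, ∀ v, |∑ l, (c k * c l) * (f k v * f l v)| ≤ ∑ _l : κ, (B * B) * (D * D) :=
    fun k v => (Finset.abs_sum_le_sum_abs _ _).trans (Finset.sum_le_sum fun l _ => b3 k l v)
  have b6 : ∀ v, |∑ k, ∑ l, (c k * c l) * (f k v * f l v)| ≤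
      ∑ _k : κ, ∑ _l : κ, (B * B) * (D * D) :=
    fun v => (Finset.abs_sum_le_sum_abs _ _).trans (Finset.sum_le_sum fun k _ => b5 k v)
  have hsq : ∀ v, (T v - ∑ k, c k * f k v) ^ 2 = T v * T v + (∑ k, (-2 * c k) * (T v * f k v) +
      ∑ k, ∑ l, (c k * c l) * (f k v * f l v)) := by
    intro v
    have g1 : ∑ k, (-2 * c k) * (T v * f k v) = -2 * (T v * ∑ k, c k * f k v) := by
      rw [Finset.mul_sum, Finset.mul_sum]
      exact Finset.sum_congr rfl fun k _ => by ring
    have g2 : ∑ k, ∑ l, (c k * c l) * (f k v * f l v) =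
        (∑ k, c k * f k v) * (∑ l, c l * f l v) := by
      rw [Finset.sum_mul_sum]
      exact Finset.sum_congr rfl fun k _ => Finset.sum_congr rfl fun l _ => by ring
    rw [g1, g2]
    ring
  have b7 : ∀ v, |∑ k, (-2 * c k) * (T v * f k v) +
      ∑ k, ∑ l, (c k * c l) * (f k v * f l v)| ≤
      (∑ _k : κ, (2 * B) * (s * D)) + ∑ _k : κ, ∑ _l : κ, (B * B) * (D * D) := fun v =>
    (abs_add_le _ _).trans (add_le_add (b4 v) (b6 v))
  have hEP : 0 ≤ EP (nm K) ε fun v => T v * T v + (∑ k, (-2 * c k) * (T v * f k v) +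
      ∑ k, ∑ l, (c k * c l) * (f k v * f l v)) :=
    EP_nonneg fun v => by
      rw [← hsq v]
      positivity
  rw [EP_add hN hε b1 b7, EP_add hN hε b4 b6, EP_sum hN hε Finset.univ _ _ (fun k _ => b2 k),
    EP_sum hN hε Finset.univ _ _ (fun k _ => b5 k)] at hEP
  have hin : ∀ k, (EP (nm K) ε fun v => ∑ l, (c k * c l) * (f k v * f l v)) =
      ∑ l, (c k * c l) * EP (nm K) ε fun v => f k v * f l v := by
    intro k
    rw [EP_sum hN hε Finset.univ _ _ (fun l _ => b3 k l)]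
    exact Finset.sum_congr rfl fun l _ => by rw [EP_const_mul]
  simp only [hin, EP_const_mul] at hEP
  have hdiv : 0 ≤ (EP (nm K) ε fun v => T v * T v) / lam ε +
      (∑ k, (-2 * c k) * ((EP (nm K) ε fun v => T v * f k v) / lam ε) +
      ∑ k, ∑ l, (c k * c l) * ((EP (nm K) ε fun v => f k v * f l v) / lam ε)) := by
    have g := div_nonneg hEP h4.le
    rw [add_div, add_div, Finset.sum_div, Finset.sum_div] at g
    simp only [Finset.sum_div, mul_div_assoc] at g
    exact g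
  -- comparison
  have k1 : ∀ k, (-2 * c k) * ((EP (nm K) ε fun v => T v * f k v) / lam ε) ≤
      (-2 * c k) * x k ε + 2 * (B * θ) := by
    intro k
    have g1 : |(-2 * c k) * ((EP (nm K) ε fun v => T v * f k v) / lam ε - x k ε)| ≤
        2 * (B * θ) := by
      rw [abs_mul, abs_mul, abs_neg, abs_two, mul_assoc]
      exact mul_le_mul_of_nonneg_left (mul_le_mul (hc k) (h1 k).le (abs_nonneg _) hB)
        (by norm_num)
    have g2 := (abs_le.1 g1).2
    linarith
  have k2 : ∀ k l, (c k * c l) * ((EP (nm K) ε fun v => f k v * f l v) / lam ε) ≤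
      (c k * c l) * G k l + B * B * θ := by
    intro k l
    have g1 : |(c k * c l) * ((EP (nm K) ε fun v => f k v * f l v) / lam ε - G k l)| ≤
        B * B * θ := by
      rw [abs_mul, abs_mul]
      exact mul_le_mul (mul_le_mul (hc k) (hc l) (abs_nonneg _) hB) (h2 k l).le (abs_nonneg _)
        (by positivity)
    have g2 := (abs_le.1 g1).2
    linarith
  have k3 : ∑ k, (-2 * c k) * ((EP (nm K) ε fun v => T v * f k v) / lam ε) ≤
      -2 * ∑ k, c k * x k ε + n * (2 * (B * θ)) := by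
    refine (Finset.sum_le_sum fun k _ => k1 k).trans (le_of_eq ?_)
    rw [Finset.sum_add_distrib, Finset.sum_const, Finset.card_univ, nsmul_eq_mul, Finset.mul_sum]
    congr 1
    exact Finset.sum_congr rfl fun k _ => by ring
  have k4 : ∑ k, ∑ l, (c k * c l) * ((EP (nm K) ε fun v => f k v * f l v) / lam ε) ≤
      ∑ k, ∑ l, c k * c l * G k l + n * (n * (B * B * θ)) := by
    refine (Finset.sum_le_sum fun k _ => Finset.sum_le_sum fun l _ => k2 k l).trans
      (le_of_eq ?_)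
    simp only [Finset.sum_add_distrib, Finset.sum_const, Finset.card_univ, nsmul_eq_mul]
    rfl
  have k5 := (abs_lt.1 h3).2
  have k6 : θ + n * (2 * (B * θ)) + n * (n * (B * B * θ)) = η := by
    have : θ * L = η := by
      rw [hθ]
      field_simp
    rw [← this, hL]
    ring
  linarith

/-- **Bessel's inequality with the factor two**, if the characters with heights have no relation with
their complex conjugates. -/
theorem bessel_half {κ : Type} [Fintype κ] {T : HeightOneSpectrum (𝓞 K) → ℝ} {s : ℝ}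
    (hs : 0 ≤ s) (hT : ∀ v, |T v| ≤ s) (U : Subgroup (GK K)) [U.Normal]
    (hU : IsOpen (U : Set (GK K))) [Finite (GK K ⧸ U)] {n : κ → ℕ}
    (ρ : ∀ k, Representation ℂ (GK K) (Fin (n k) → ℂ)) (hρ : ∀ k, ∀ u ∈ U, ρ k u = 1)
    (τ : κ → ℝ) (σ : HeightOneSpectrum (𝓞 K) → GK K) (hσ : ∀ v, IsFrob v (σ v))
    (hirr : ∀ k, (ρ k).IsIrreducible)
    (hne : ∀ k l, k ≠ l → τ k = τ l → IsEmpty ((ρ k).Equiv (ρ l)))
    (hdual : ∀ k l, τ k + τ l ≠ 0 ∨ ∃ (n' : ℕ) (θ : Representation ℂ (GK K) (Fin n' → ℂ)),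
      IsArtin θ ∧ (∀ g, θ.character g = (ρ k).character g * (ρ l).character g) ∧
      Module.finrank ℂ θ.invariants = 0)
    {x : κ → ℝ → ℝ}
    (hx : ∀ k, Tendsto (fun ε : ℝ => (EP (nm K) ε fun v => T v * RR (ρ k) (τ k) σ v) / lam ε -
      x k ε) (𝓝[>] 0) (𝓝 0)) {S : ℝ → ℝ}
    (hS : Tendsto (fun ε : ℝ => (EP (nm K) ε fun v => T v * T v) / lam ε - S ε) (𝓝[>] 0) (𝓝 0))
    {η : ℝ} (hη : 0 < η) : ∀ᶠ ε : ℝ in 𝓝[>] 0, 2 * ∑ k, (x k ε) ^ 2 ≤ S ε + η := by
  classical
  obtain ⟨D, hD0, hD⟩ : ∃ D : ℝ, 0 < D ∧ ∀ k, (n k : ℝ) ≤ D := by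
    refine ⟨1 + ∑ k, (n k : ℝ), by positivity, fun k => ?_⟩
    have := Finset.single_le_sum (f := fun k => (n k : ℝ)) (fun k _ => Nat.cast_nonneg _)
      (Finset.mem_univ k)
    linarith
  have hRR : ∀ k v, |RR (ρ k) (τ k) σ v| ≤ D := fun k v =>
    (abs_RR_le U (ρ k) (hρ k) _ _ _).trans (hD k)
  have hG : ∀ k l, Has (fun v => RR (ρ k) (τ k) σ v * RR (ρ l) (τ l) σ v)
      (if k = l then 1 / 2 else 0) := by
    intro k l
    have g1 : Has (((chF U ρ hρ k).mul (chF U ρ hρ l)).R (τ k + τ l) σ) 0 := by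
      rcases hdual k l with h | ⟨n', θ, hA, hc, h0⟩
      · exact CF.has_ne hU σ hσ _ h
      · by_cases h : τ k + τ l = 0
        · have g2 := has_char θ hA σ hσ
          rw [h0] at g2
          refine g2.congr (fun v => ?_) (by simp)
          rw [h, RR_zero]
          unfold CF.R CF.mul
          rw [zz_zero, mul_one, hc]
          rfl
        · exact CF.has_ne hU σ hσ _ h
    have g2 := has_kl U hU Finset.univ ρ hρ τ σ hσ (fun k _ => hirr k)
      (fun k _ l _ h h' => hne k l h h') (Finset.mem_univ k) (Finset.mem_univ l)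
    refine ((g1.const_mul (1 / 2)).add (g2.const_mul (1 / 2))).congr (fun v => ?_) ?_
    · rw [← chF_R U ρ hρ k, ← chF_R U ρ hρ l, CF.R_mul]
    · split_ifs <;> ring
  -- the coefficients
  set B : ℝ := 2 * (s * D * 2 + 1) with hB
  have hB0 : 0 ≤ B := by positivity
  have hxB : ∀ᶠ ε : ℝ in 𝓝[>] 0, ∀ k, |2 * x k ε| ≤ B := by
    rw [Filter.eventually_all]
    intro k
    filter_upwards [(Metric.tendsto_nhds.1 (hx k)) 1 one_pos,
      (EP_one K).eventually_lt_const (by norm_num : (1 : ℝ) < 2),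
      lam_tendsto.eventually_gt_atTop 0, self_mem_nhdsWithin] with ε h1 h2 h3 h4
    rw [Real.dist_eq, sub_zero] at h1
    have hε : (0 : ℝ) < ε := h4
    have g1 : |EP (nm K) ε fun v => T v * RR (ρ k) (τ k) σ v| ≤
        EP (nm K) ε fun _ => (s * D) * 1 := by
      refine EP_abs_le (B := s * D) (fun v => ?_) (fun v => ?_) hε
      · rw [mul_one, abs_of_nonneg (by positivity)]
      · rw [abs_mul, mul_one]
        exact mul_le_mul (hT v) (hRR k v) (abs_nonneg _) hs
    rw [EP_const_mul] at g1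
    have g2 : |(EP (nm K) ε fun v => T v * RR (ρ k) (τ k) σ v) / lam ε| ≤ s * D * 2 := by
      rw [abs_div, abs_of_pos h3, div_le_iff₀ h3]
      refine g1.trans ?_
      rw [div_lt_iff₀ h3] at h2
      have g3 : (EP (nm K) ε fun _ => (1 : ℝ)) ≤ 2 * lam ε := h2.le
      have g4 : 0 ≤ s * D := by positivity
      calc s * D * (EP (nm K) ε fun _ => (1 : ℝ)) ≤ s * D * (2 * lam ε) :=
            mul_le_mul_of_nonneg_left g3 g4
        _ = s * D * 2 * lam ε := by ring
    have g3 : |x k ε| ≤ s * D * 2 + 1 := by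
      have g4 := abs_sub_abs_le_abs_sub (x k ε) ((EP (nm K) ε fun v =>
        T v * RR (ρ k) (τ k) σ v) / lam ε)
      rw [abs_sub_comm] at g4
      linarith
    rw [abs_mul, abs_two, hB]
    linarith
  filter_upwards [gram hT hRR hG hx hS hB0 hη, hxB] with ε h1 h2
  have h3 := h1 (fun k => 2 * x k ε) h2
  have e1 : ∑ k, (2 * x k ε) * x k ε = 2 * ∑ k, (x k ε) ^ 2 := by
    rw [Finset.mul_sum]
    exact Finset.sum_congr rfl fun k _ => by ring
  have e2 : ∑ k, ∑ l, (2 * x k ε) * (2 * x l ε) * (if k = l then (1 / 2 : ℝ) else 0) =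
      2 * ∑ k, (x k ε) ^ 2 := by
    rw [Finset.mul_sum]
    refine Finset.sum_congr rfl fun k _ => ?_
    rw [Finset.sum_eq_single k]
    · rw [if_pos rfl]
      ring
    · intro l _ hl
      rw [if_neg (Ne.symm hl), mul_zero]
    · intro h
      exact absurd (Finset.mem_univ k) h
  rw [e1, e2] at h3
  linarith

end

end Pool.Agent.Q11.TP
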