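import Pool.Agent.Y139.SM.Final
import Pool.Agent.Y139.SM.Rigid2
import Pool.Agent.Y139.SM.Bessel

/-!
# The defects of Tate's conjecture and the pole of `L(T ⊗ T, s)`: proofs

`T` is the transcendental part of `H^{2m}(X)`, the complement of the part `V(-m)` of the algebraic
classes.  Bessel's inequality with the second moment `L(T ⊗ T, s)`, and rigidity.
-/

set_option autoImplicit false

namespace Pool.Agent.Q11.TP

open Complex Filter Topology ComplexConjugate NumberField IsDedekindDomain Asymptotics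
  Pool.Agent.W401.Cheb Pool.Agent.W540.BE Pool.Agent.W353.L1 Polynomial Pool.Agent.Y139.SM
open Pool.Agent.H341R2 (lam lam_tendsto)
open Pool.Agent.W353.TD (ch IsPart rank)
open Pool.Agent.W353.PV (tF)
open Pool.Agent.W353.EF (LFun)
open Pool.Agent.W353.EH (edgePoint size HasOrder)
open Pool.Agent.W353.AT (tC abs_tC IsArtin exists_common tw_C IsTwistedSystem
  twistRank TwistDefect fixedDim)

section
variable {K : Type} [Field K] [NumberField K] {l : ℕ} {X : Set (MvPolynomial (Fin l) (𝓞 K))}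
  {d m N : ℕ} {V : Type} [AddCommGroup V] [Module ℚ V] [FiniteDimensional ℚ V]
  {ρ : Representation ℚ (GK K) V}

/-- **Bessel's inequality for the defects, with the tensor square.** -/
theorem besselT (hmd : m ≤ d) (hV : IsPart X d m N ρ) {κ : Type} [Fintype κ] (n : κ → ℕ)
    (χ : ∀ k, Representation ℂ (GK K) (Fin (n k) → ℂ)) (hχ : ∀ k, IsArtin (χ k))
    (hirr : ∀ k, (χ k).IsIrreducible) (hne : ∀ k k', k ≠ k' → IsEmpty ((χ k).Equiv (χ k')))
    (B : κ → HeightOneSpectrum (𝓞 K) → ℂ[X])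
    (hB : ∀ k, IsTwistedSystem X d (2 * m) N (χ k) 0 (B k))
    (B₂ : HeightOneSpectrum (𝓞 K) → ℂ[X])
    (hB₂ : IsTensorSystem X d m N ρ 2 (1 : Representation ℂ (GK K) (Fin 1 → ℂ)) B₂)
    {η : ℝ} (hη : 0 < η) :
    ∀ᶠ ε : ℝ in 𝓝[>] 0, ∑ k, (size (2 * m) 0 (B k) ε - twistRank ρ (χ k)) ^ 2 ≤
      size (2 * (2 * m)) 0 B₂ ε + η := by
  classical
  have hm : 2 * m ≤ 2 * d := by omega
  choose σ hσ using exists_isFrob (F := K)
  obtain ⟨U, hUn, hU, hx1⟩ := exists_common χ hχ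
  have hfin : Finite (GK K ⧸ U) := Subgroup.quotient_finite_of_isOpen U hU
  have hgood := good_of_part hm hV hσ
  refine bessel_two U hU Finset.univ χ hx1 (fun _ => 0) σ hσ
    (T := tC ρ X d (2 * m) N (N - Module.finrank ℚ V) σ)
    (s := (N - Module.finrank ℚ V : ℕ)) (Nat.cast_nonneg _) (fun v => abs_tC _ _ _ _ _ _ _ _)
    (x := fun k ε => size (2 * m) 0 (B k) ε - twistRank ρ (χ k)) (fun k _ => ?_)
    (S := size (2 * (2 * m)) 0 B₂) ?_ (fun k _ => hirr k) (fun k _ k' _ h _ => hne k k' h) hη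
  · exact (tw_C hm hσ hgood hV.1 ⟨n k, χ k⟩ (hχ k) (B k) (hB k)).2
  · refine ((tensor_size hm hσ hgood 2 _ one_artin B₂ hB₂).2).congr fun ε => ?_
    simp only [RR_one, mul_one, pow_two]

/-- **Rigidity for the tensor powers of the transcendental part.** -/
theorem rigidT (hmd : m ≤ d) (hV : IsPart X d m N ρ) {n : ℕ}
    {χ : Representation ℂ (GK K) (Fin n → ℂ)}
    (hχ : IsArtin χ) (hirr : χ.IsIrreducible) {B₁ B₂ : HeightOneSpectrum (𝓞 K) → ℂ[X]}
    (hB₁ : IsTwistedSystem X d (2 * m) N χ 0 B₁)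
    (hB₂ : IsTensorSystem X d m N ρ 2 (1 : Representation ℂ (GK K) (Fin 1 → ℂ)) B₂)
    {e : ℝ} (he : e = 1 ∨ e = -1)
    (r : ℕ) {n' : ℕ} {ψ : Representation ℂ (GK K) (Fin n' → ℂ)} (hψ : IsArtin ψ)
    {n'' : ℕ} {θ : Representation ℂ (GK K) (Fin n'' → ℂ)} (hθ : IsArtin θ)
    (hc : ∀ g, θ.character g = χ.character g ^ r * ψ.character g)
    {B : HeightOneSpectrum (𝓞 K) → ℂ[X]} (hB : IsTensorSystem X d m N ρ r ψ B)
    {δ η : ℝ} (hδ : 0 < δ) (hη : 0 < η) :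
    ∀ᶠ ε : ℝ in 𝓝[>] 0,
      0 ≤ size (2 * (2 * m)) 0 B₂ ε + 2 * e * (size (2 * m) 0 B₁ ε - twistRank ρ χ) + 1 + η ∧
      |size (2 * (r * m)) 0 B ε - (-e) ^ r * Module.finrank ℂ θ.invariants| ≤
        r * (((N - Module.finrank ℚ V : ℕ) : ℝ) + n) ^ (r - 1) * n' *
          ((δ + (size (2 * (2 * m)) 0 B₂ ε +
            2 * e * (size (2 * m) 0 B₁ ε - twistRank ρ χ) + 1) / δ) / 2) + η := by
  classical
  have hm : 2 * m ≤ 2 * d := by omega
  choose σ hσ using exists_isFrob (F := K)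
  obtain ⟨U, hUn, hU, hx1⟩ := exists_common (κ := Unit) (n := fun _ => n)
    (fun _ => χ) fun _ => hχ
  have hx1 : ∀ u ∈ U, χ u = 1 := hx1 ()
  have hfin : Finite (GK K ⧸ U) := Subgroup.quotient_finite_of_isOpen U hU
  obtain ⟨U', hUn', hU', hx1'⟩ := exists_common (κ := Unit) (n := fun _ => n')
    (fun _ => ψ) fun _ => hψ
  have hx1' : ∀ u ∈ U', ψ u = 1 := hx1' ()
  have hfin' : Finite (GK K ⧸ U') := Subgroup.quotient_finite_of_isOpen U' hU'
  have hgood := good_of_part hm hV hσ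
  have g1 := (tw_C hm hσ hgood hV.1 ⟨n, χ⟩ hχ B₁ hB₁).2
  have g2 := (tensor_size hm hσ hgood 2 _ one_artin B₂ hB₂).2
  have g3 := (tensor_size hm hσ hgood r ψ hψ B hB).2
  refine core_rigid (K := K) (T := tC ρ X d (2 * m) N (N - Module.finrank ℚ V) σ)
    (c := fun v => χ.character (σ v)⁻¹)
    (w := fun v => ψ.character (σ v)⁻¹) (s := (N - Module.finrank ℚ V : ℕ)) (a := n) (b := n')
    (Nat.cast_nonneg _)
    (Nat.cast_nonneg _) (Nat.cast_nonneg _) (fun v => abs_tC _ _ _ _ _ _ _ _)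
    (fun v => norm_char_le U χ hx1 (σ v)⁻¹) (fun v => norm_char_le U' ψ hx1' (σ v)⁻¹)
    (has_norm χ hχ hirr σ hσ) (S₂ := size (2 * (2 * m)) 0 B₂)
    (x := fun ε => size (2 * m) 0 B₁ ε - twistRank ρ χ)
    (y := size (2 * (r * m)) 0 B) ?_ ?_ r ?_ (char_pow_mul hc hθ σ hσ) he hδ hη
  · refine g2.congr fun ε => ?_
    simp only [RR_one, mul_one]
  · refine g1.congr fun ε => ?_
    simp only [RR_zero]
  · refine g3.congr fun ε => ?_
    simp only [RR_zero]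

/-- the sum of the squares of the defects is at most the order of the pole of `L(T ⊗ T, s)` -/
theorem sum_defects (hmd : m ≤ d) (hV : IsPart X d m N ρ) {p : ℕ}
    (hp : TensorPole X d m N ρ 2 (1 : Representation ℂ (GK K) (Fin 1 → ℂ)) p)
    {κ : Type} [Fintype κ] (n : κ → ℕ)
    (χ : ∀ k, Representation ℂ (GK K) (Fin (n k) → ℂ)) (δ : κ → ℤ) (hχ : ∀ k, IsArtin (χ k))
    (hirr : ∀ k, (χ k).IsIrreducible) (hne : ∀ k k', k ≠ k' → IsEmpty ((χ k).Equiv (χ k')))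
    (hδ : ∀ k, TwistDefect X d m N ρ (χ k) (δ k)) : ∑ k, δ k ^ 2 ≤ (p : ℤ) := by
  classical
  choose B hB hlim using hδ
  obtain ⟨B₂, hB₂, h2⟩ := hp
  have h1 : Tendsto (fun ε : ℝ => ∑ k, (size (2 * m) 0 (B k) ε - twistRank ρ (χ k)) ^ 2) (𝓝[>] 0)
      (𝓝 (∑ k, ((δ k : ℝ)) ^ 2)) := by
    refine tendsto_finsetSum _ fun k _ => ?_
    have h3 := ((hlim k).sub_const (twistRank ρ (χ k) : ℝ)).pow 2
    have e : (((twistRank ρ (χ k) : ℝ) - δ k) - twistRank ρ (χ k)) ^ 2 = ((δ k : ℝ)) ^ 2 := by ring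
    rwa [e] at h3
  have h3 : ∑ k, ((δ k : ℝ)) ^ 2 ≤ (p : ℝ) := by
    refine le_of_forall_pos_le_add fun η hη => ?_
    exact le_of_tendsto_of_tendsto h1 (h2.add_const η)
      (besselT hmd hV n χ hχ hirr hne B hB B₂ hB₂ hη)
  exact_mod_cast h3

/-- the defects over all number fields -/
theorem allFields (hmd : m ≤ d) (hV : IsPart X d m N ρ) {p : ℕ}
    (hp : TensorPole X d m N ρ 2 (1 : Representation ℂ (GK K) (Fin 1 → ℂ)) p)
    (H : ∀ (n : ℕ) (χ : Representation ℂ (GK K) (Fin n → ℂ)), IsArtin χ →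
      χ.IsIrreducible → ∃ δ : ℤ, TwistDefect X d m N ρ χ δ) :
    ∃ (κ : Type) (_ : Fintype κ) (n : κ → ℕ)
      (χ : ∀ k, Representation ℂ (GK K) (Fin (n k) → ℂ)) (δ : κ → ℤ),
      (∀ k, IsArtin (χ k) ∧ (χ k).IsIrreducible ∧ δ k ≠ 0 ∧ TwistDefect X d m N ρ (χ k) (δ k)) ∧
      (∀ k k', k ≠ k' → IsEmpty ((χ k).Equiv (χ k'))) ∧
      ∑ k, δ k ^ 2 ≤ (p : ℤ) ∧ Fintype.card κ ≤ p ∧
      (∀ (n' : ℕ) (χ' : Representation ℂ (GK K) (Fin n' → ℂ)), IsArtin χ' →
        χ'.IsIrreducible → (∀ k, IsEmpty (χ'.Equiv (χ k))) → TwistDefect X d m N ρ χ' 0) ∧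
      ∀ (F : IntermediateField K (AlgebraicClosure K)) [NumberField F]
        (B : HeightOneSpectrum (𝓞 F) → ℂ[X]), Pool.Agent.W353.EF.IsEulerSystem X d (2 * m) N B →
        (∀ᶠ ε : ℝ in 𝓝[>] 0, LFun B (((2 * m : ℕ) : ℂ) / 2 + 1 + ε) ≠ 0) ∧
        Tendsto (Pool.Agent.W353.EF.size (2 * m) B) (𝓝[>] 0)
          (𝓝 ((rank ρ F : ℝ) - ∑ k, (δ k : ℝ) * fixedDim (χ k) F)) := by
  classical
  obtain ⟨κ, iκ, n, χ, δ, M, h1, h2, -, h4, -, -, h5⟩ :=
    (Pool.Agent.W353.AT.tateOverAllFields hmd hV).2 H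
  have hs : ∑ k, δ k ^ 2 ≤ (p : ℤ) := sum_defects hmd hV hp n χ δ (fun k => (h1 k).1)
    (fun k => (h1 k).2.1) h2 (fun k => (h1 k).2.2.2)
  refine ⟨κ, iκ, n, χ, δ, h1, h2, hs, ?_, h4, fun F _ B hB => (h5 F).1 B hB⟩
  have h6 : (Fintype.card κ : ℤ) ≤ ∑ k, δ k ^ 2 := by
    rw [← Finset.card_univ, Finset.card_eq_sum_ones]
    push_cast
    refine Finset.sum_le_sum fun k _ => ?_
    have h7 : 0 < δ k ^ 2 := by
      have := (h1 k).2.2.1
      positivity
    omega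
  exact_mod_cast h6.trans hs

/-- the consequences of a simple pole of `L(T ⊗ T, s)` -/
theorem rigidT_defect (hmd : m ≤ d) (hV : IsPart X d m N ρ) {p : ℕ} (hp1 : p ≤ 1)
    (hp : TensorPole X d m N ρ 2 (1 : Representation ℂ (GK K) (Fin 1 → ℂ)) p)
    {n : ℕ} {χ : Representation ℂ (GK K) (Fin n → ℂ)} (hχ : IsArtin χ) (hirr : χ.IsIrreducible)
    {δ : ℤ} (hδ : TwistDefect X d m N ρ χ δ) (hδ0 : δ ≠ 0) :
    (δ = 1 ∨ δ = -1) ∧ p = 1 ∧
    (∀ (n'' : ℕ) (θ : Representation ℂ (GK K) (Fin n'' → ℂ)), IsArtin θ →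
      (∀ g, θ.character g = χ.character g ^ 2) → Module.finrank ℂ θ.invariants = 1) ∧
    ∀ (r n' n'' : ℕ) (ψ : Representation ℂ (GK K) (Fin n' → ℂ))
      (θ : Representation ℂ (GK K) (Fin n'' → ℂ)) (B : HeightOneSpectrum (𝓞 K) → ℂ[X]),
      IsArtin ψ → IsArtin θ → (∀ g, θ.character g = χ.character g ^ r * ψ.character g) →
      IsTensorSystem X d m N ρ r ψ B →
      Tendsto (size (2 * (r * m)) 0 B) (𝓝[>] 0)
        (𝓝 ((-δ : ℤ) ^ r * Module.finrank ℂ θ.invariants)) := by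
  classical
  have hsq : δ ^ 2 ≤ (p : ℤ) := by
    have h := sum_defects (κ := Unit) hmd hV hp (fun _ => n) (fun _ => χ) (fun _ => δ)
      (fun _ => hχ) (fun _ => hirr) (fun k k' h => absurd (Subsingleton.elim k k') h)
      (fun _ => hδ)
    simpa using h
  have hδ1 : δ = 1 ∨ δ = -1 := by
    have h1 : δ ^ 2 ≤ 1 := hsq.trans (by exact_mod_cast hp1)
    have h2 : -1 ≤ δ := by nlinarith
    have h3 : δ ≤ 1 := by nlinarith
    omega
  have hpe : p = 1 := by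
    have h1 : δ ^ 2 = 1 := by rcases hδ1 with h | h <;> rw [h] <;> norm_num
    rw [h1] at hsq
    have h2 : 1 ≤ p := by exact_mod_cast hsq
    omega
  have hδr : (δ : ℝ) = 1 ∨ (δ : ℝ) = -1 := by
    rcases hδ1 with h | h
    · left; rw [h]; norm_num
    · right; rw [h]; norm_num
  have hδδ : (δ : ℝ) * δ = 1 := by rcases hδr with h | h <;> rw [h] <;> norm_num
  obtain ⟨B₁, hB₁, hl1⟩ := hδ
  obtain ⟨B₂, hB₂, hl2⟩ := hp
  rw [hpe] at hl2
  have hQ : Tendsto (fun ε => size (2 * (2 * m)) 0 B₂ ε +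
      2 * (δ : ℝ) * (size (2 * m) 0 B₁ ε - twistRank ρ χ) + 1) (𝓝[>] 0) (𝓝 0) := by
    have h1 := (hl2.add ((hl1.sub_const (twistRank ρ χ : ℝ)).const_mul (2 * (δ : ℝ)))).add_const 1
    have e1 : ((1 : ℕ) : ℝ) + 2 * (δ : ℝ) * (((twistRank ρ χ : ℝ) - δ) - twistRank ρ χ) + 1 = 0 := by
      push_cast
      linarith
    rwa [e1] at h1
  refine ⟨hδ1, hpe, fun n'' θ hθ hc => ?_, fun r n' n'' ψ θ B hψ hθ hc hB => ?_⟩
  · -- apply the core with `r = 1` and `ψ = χ`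
    have hm : 2 * m ≤ 2 * d := by omega
    choose σ hσ using exists_isFrob (F := K)
    obtain ⟨U, hUn, hU, hx1⟩ := exists_common (κ := Unit) (n := fun _ => n)
      (fun _ => χ) fun _ => hχ
    have hx1 : ∀ u ∈ U, χ u = 1 := hx1 ()
    have hfin : Finite (GK K ⧸ U) := Subgroup.quotient_finite_of_isOpen U hU
    have hgood := good_of_part hm hV hσ
    have g1 := (tw_C hm hσ hgood hV.1 ⟨n, χ⟩ hχ B₁ hB₁).2
    have g2 := (tensor_size hm hσ hgood 2 _ one_artin B₂ hB₂).2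
    have hc' : ∀ g, θ.character g = χ.character g ^ 1 * χ.character g := fun g => by
      rw [hc, pow_one, pow_two]
    have h5 := rigid_lim (C := (1 : ℕ) * ((((N - Module.finrank ℚ V : ℕ) : ℝ)) + n) ^ (1 - 1) * n)
      (by positivity) hQ
      (y := fun ε => size (2 * m) 0 B₁ ε - twistRank ρ χ)
      (z := (-(δ : ℝ)) ^ 1 * Module.finrank ℂ θ.invariants)
      (fun δ' η hδ' hη => (core_rigid (K := K)
        (T := tC ρ X d (2 * m) N (N - Module.finrank ℚ V) σ)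
        (c := fun v => χ.character (σ v)⁻¹)
        (w := fun v => χ.character (σ v)⁻¹) (s := (N - Module.finrank ℚ V : ℕ)) (a := n) (b := n)
        (Nat.cast_nonneg _) (Nat.cast_nonneg _) (Nat.cast_nonneg _)
        (fun v => abs_tC _ _ _ _ _ _ _ _)
        (fun v => norm_char_le U χ hx1 (σ v)⁻¹) (fun v => norm_char_le U χ hx1 (σ v)⁻¹)
        (has_norm χ hχ hirr σ hσ) (S₂ := size (2 * (2 * m)) 0 B₂)
        (x := fun ε => size (2 * m) 0 B₁ ε - twistRank ρ χ)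
        (y := fun ε => size (2 * m) 0 B₁ ε - twistRank ρ χ)
        (by
          refine g2.congr fun ε => ?_
          simp only [RR_one, mul_one])
        (by
          refine g1.congr fun ε => ?_
          simp only [RR_zero]) 1
        (by
          refine g1.congr fun ε => ?_
          simp only [RR_zero, pow_one]) (char_pow_mul hc' hθ σ hσ) hδr hδ' hη).mono
        fun ε hε => hε.2)
    have h6 := hl1.sub_const (twistRank ρ χ : ℝ)
    have h7 := tendsto_nhds_unique h6 h5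
    have h8 : (δ : ℝ) * Module.finrank ℂ θ.invariants = δ := by
      rw [pow_one] at h7
      linarith
    have h9 : (Module.finrank ℂ θ.invariants : ℝ) = 1 := by
      have : (δ : ℝ) * ((δ : ℝ) * Module.finrank ℂ θ.invariants) = (δ : ℝ) * δ := by rw [h8]
      rw [← mul_assoc, hδδ, one_mul] at this
      exact this
    exact_mod_cast h9
  · have h5 := rigid_lim (C := r * ((((N - Module.finrank ℚ V : ℕ) : ℝ)) + n) ^ (r - 1) * n')
      (by positivity) hQ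
      (y := size (2 * (r * m)) 0 B) (z := (-(δ : ℝ)) ^ r * Module.finrank ℂ θ.invariants)
      (fun δ' η hδ' hη => (rigidT hmd hV hχ hirr hB₁ hB₂ hδr r hψ hθ hc hB hδ' hη).mono
        fun ε hε => hε.2)
    push_cast
    exact h5

end

end Pool.Agent.Q11.TP
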